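import Mathlib

/-!
# A fast kernel test for Wieferich primes

The tests are written with the basic functions of natural numbers so that the kernel evaluates
them quickly.
-/

set_option autoImplicit false

namespace Pool.Agent.H12.TD

/-- `2 ^ m` is not `1` modulo `s` (for `s = 0` the value is `true`) -/
def ta (m s : ℕ) : Bool :=
  Nat.rec true (fun s _ => Bool.not (Nat.beq (Nat.mod (Nat.mul (Nat.pow 2 (Nat.mod m 1024))
    (Nat.pow (Nat.mod (Nat.pow 2 1024) (Nat.succ s)) (Nat.div m 1024))) (Nat.succ s)) 1)) s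

/-- `n` is divisible by `5`, `7` or `11`, or `n ^ 2` does not divide `2 ^ (n - 1) - 1` -/
def tst (n : ℕ) : Bool :=
  Nat.rec true (fun m _ => Bool.rec (Bool.rec (Bool.rec
    (ta m (Nat.mul (Nat.succ m) (Nat.succ m))) true (Nat.beq (Nat.mod (Nat.succ m) 11) 0))
    true (Nat.beq (Nat.mod (Nat.succ m) 7) 0)) true
    (Nat.beq (Nat.mod (Nat.succ m) 5) 0)) n

/-- test for all `6 * b + 1` and `6 * b + 5` with `a ≤ b < a + 2 ^ k` -/
def blk (k : ℕ) : ℕ → Bool :=
  Nat.rec (fun a => Bool.rec false (tst (Nat.add (Nat.mul 6 a) 5))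
    (tst (Nat.add (Nat.mul 6 a) 1)))
   (fun k ih a => Bool.rec false (ih (Nat.add a (Nat.pow 2 k))) (ih a)) k

set_option exponentiation.threshold 2000 in
theorem ta_spec (m s : ℕ) (h : ta m (s + 1) = true) : 2 ^ m % (s + 1) ≠ 1 := by
  have h1 : ta m (s + 1) = !(Nat.beq ((2 ^ (m % 1024) * (2 ^ 1024 % (s + 1)) ^ (m / 1024)) %
      (s + 1)) 1) := rfl
  rw [h1] at h
  have h2 : (2 ^ (m % 1024) * (2 ^ 1024 % (s + 1)) ^ (m / 1024)) % (s + 1) = 2 ^ m % (s + 1) := by
    have h3 : (2 ^ 1024 % (s + 1)) ^ (m / 1024) % (s + 1) =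
        (2 ^ 1024) ^ (m / 1024) % (s + 1) := (Nat.pow_mod _ _ _).symm
    rw [Nat.mul_mod, h3, ← Nat.mul_mod, ← pow_mul, ← pow_add, Nat.mod_add_div]
  rw [h2] at h
  intro h4
  rw [h4] at h
  exact absurd h (by decide)

theorem tst_spec (n : ℕ) (hn : 0 < n) (h : tst n = true) (h5 : n % 5 ≠ 0) (h7 : n % 7 ≠ 0)
    (h11 : n % 11 ≠ 0) : 2 ^ (n - 1) % (n * n) ≠ 1 := by
  obtain ⟨m, rfl⟩ : ∃ m, n = m + 1 := ⟨n - 1, by omega⟩
  have b5 : Nat.beq ((m + 1) % 5) 0 = false := by
    cases hb : Nat.beq ((m + 1) % 5) 0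
    · rfl
    · exact absurd (Nat.eq_of_beq_eq_true hb) h5
  have b7 : Nat.beq ((m + 1) % 7) 0 = false := by
    cases hb : Nat.beq ((m + 1) % 7) 0
    · rfl
    · exact absurd (Nat.eq_of_beq_eq_true hb) h7
  have b11 : Nat.beq ((m + 1) % 11) 0 = false := by
    cases hb : Nat.beq ((m + 1) % 11) 0
    · rfl
    · exact absurd (Nat.eq_of_beq_eq_true hb) h11
  have h1 : tst (m + 1) = Bool.rec (motive := fun _ => Bool) (Bool.rec (motive := fun _ => Bool)
      (Bool.rec (motive := fun _ => Bool)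
      (ta m ((m + 1) * (m + 1))) true (Nat.beq ((m + 1) % 11) 0))
      true (Nat.beq ((m + 1) % 7) 0)) true (Nat.beq ((m + 1) % 5) 0) := rfl
  rw [h1, b5, b7, b11] at h
  have h2 : (m + 1) * (m + 1) = (m * m + 2 * m) + 1 := by ring
  have h3 : ta m ((m * m + 2 * m) + 1) = true := by
    rw [← h2]
    exact h
  have h4 := ta_spec m _ h3
  rw [← h2] at h4
  simpa using h4

theorem blk_spec : ∀ (k a : ℕ), blk k a = true → ∀ b, a ≤ b → b < a + 2 ^ k →
    tst (6 * b + 1) = true ∧ tst (6 * b + 5) = true := by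
  intro k
  induction k with
  | zero =>
    intro a h b hab hb
    have hb' : b = a := by
      rw [pow_zero] at hb
      omega
    subst hb'
    have h1 : blk 0 b = Bool.rec (motive := fun _ => Bool) false (tst (6 * b + 5))
      (tst (6 * b + 1)) := rfl
    rw [h1] at h
    cases h2 : tst (6 * b + 1)
    · rw [h2] at h
      have h' : false = true := h
      exact absurd h' (by decide)
    · rw [h2] at h
      exact ⟨rfl, h⟩
  | succ k ih =>
    intro a h b hab hb
    have h1 : blk (k + 1) a = Bool.rec (motive := fun _ => Bool) false (blk k (a + 2 ^ k))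
      (blk k a) := rfl
    rw [h1] at h
    cases h2 : blk k a
    · rw [h2] at h
      have h' : false = true := h
      exact absurd h' (by decide)
    · rw [h2] at h
      rcases Nat.lt_or_ge b (a + 2 ^ k) with h3 | h3
      · exact ih a h2 b hab h3
      · exact ih (a + 2 ^ k) h b h3 (by rw [pow_succ] at hb; omega)

end Pool.Agent.H12.TD
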