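import Pool.Agent.H12.TD.Chk

/-!
# The kernel test, first half
-/

set_option autoImplicit false

namespace Pool.Agent.H12.TD

theorem c10 : blk 10 1024 = true := by decide +kernel

theorem c11 : blk 11 2048 = true := by decide +kernel

theorem c12 : blk 12 4096 = true := by decide +kernel

theorem c13 : blk 13 8192 = true := by decide +kernel

theorem c14 : blk 14 16384 = true := by decide +kernel

theorem c15 : blk 15 32768 = true := by decide +kernel

/-- the small numbers -/
theorem c0 : ∀ b < 1024, b ≠ 182 → b ≠ 585 → tst (6 * b + 1) = true ∧ tst (6 * b + 5) = true := by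
  decide +kernel

theorem c0' : tst (6 * 182 + 5) = true ∧ tst (6 * 585 + 5) = true := by decide +kernel

end Pool.Agent.H12.TD
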