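import Pool.Agent.H12.TD.Chk

/-!
# The kernel test, second half
-/

set_option autoImplicit false

namespace Pool.Agent.H12.TD

theorem d0 : blk 15 65536 = true := by decide +kernel

theorem d1 : blk 15 98304 = true := by decide +kernel

theorem d2 : blk 15 131072 = true := by decide +kernel

theorem d3 : blk 14 163840 = true := by decide +kernel

end Pool.Agent.H12.TD
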