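import Pool.Agent.H12.TD.Wie
import Pool.Agent.H99.SQ.Defs

/-!
# (KA): there are no Wieferich primes below `10 ^ 6` except 1093 and 3511
-/

set_option autoImplicit false

namespace Pool.Agent.H12.TD

theorem pf_KA : Pool.Agent.H99.SQ.T_KA := by
  intro p hp _ h2 h3 h4 h5
  rcases wief_small p ⟨hp, h5⟩ (lt_of_le_of_lt h2 (by norm_num)) with h | h
  · exact h3 h
  · exact h4 h

end Pool.Agent.H12.TD
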