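import Pool.Agent.H12.TD.ChkA
import Pool.Agent.H12.TD.ChkB
import Pool.Agent.H12.SP.Defs

/-!
# The Wieferich primes below `2 ^ 20`
-/

set_option autoImplicit false

namespace Pool.Agent.H12.TD

open Pool.Agent.H12.SP

theorem all_tst (b : ℕ) (hb : b < 174763) (h1 : b ≠ 182) (h2 : b ≠ 585) :
    tst (6 * b + 1) = true ∧ tst (6 * b + 5) = true := by
  rcases Nat.lt_or_ge b 1024 with h | h
  · exact c0 b h h1 h2
  rcases Nat.lt_or_ge b 2048 with h' | h'
  · exact blk_spec 10 1024 c10 b h (by norm_num; omega)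
  rcases Nat.lt_or_ge b 4096 with h3 | h3
  · exact blk_spec 11 2048 c11 b h' (by norm_num; omega)
  rcases Nat.lt_or_ge b 8192 with h4 | h4
  · exact blk_spec 12 4096 c12 b h3 (by norm_num; omega)
  rcases Nat.lt_or_ge b 16384 with h5 | h5
  · exact blk_spec 13 8192 c13 b h4 (by norm_num; omega)
  rcases Nat.lt_or_ge b 32768 with h6 | h6
  · exact blk_spec 14 16384 c14 b h5 (by norm_num; omega)
  rcases Nat.lt_or_ge b 65536 with h7 | h7
  · exact blk_spec 15 32768 c15 b h6 (by norm_num; omega)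
  rcases Nat.lt_or_ge b 98304 with h8 | h8
  · exact blk_spec 15 65536 d0 b h7 (by norm_num; omega)
  rcases Nat.lt_or_ge b 131072 with h9 | h9
  · exact blk_spec 15 98304 d1 b h8 (by norm_num; omega)
  rcases Nat.lt_or_ge b 163840 with h10 | h10
  · exact blk_spec 15 131072 d2 b h9 (by norm_num; omega)
  · exact blk_spec 14 163840 d3 b h10 (by norm_num; omega)

/-- The Wieferich primes below `2 ^ 20` are `1093` and `3511`. -/
theorem wief_small (p : ℕ) (hp : Wief p) (h : p < 2 ^ 20) : p = 1093 ∨ p = 3511 := by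
  obtain ⟨hpp, hd⟩ := hp
  by_contra hne
  push Not at hne
  obtain ⟨hne1, hne2⟩ := hne
  have hp2 := hpp.two_le
  have hno : ∀ q : ℕ, q.Prime → p % q = 0 → p = q := fun q hq h0 =>
    ((Nat.prime_dvd_prime_iff_eq hq hpp).mp (Nat.dvd_of_mod_eq_zero h0)).symm
  have hsm : ∀ q : ℕ, 1 < q → ¬ (q ^ 2 ∣ 2 ^ (q - 1) - 1) → p ≠ q := fun q _ h1 h2 => by
    rw [h2] at hd
    exact h1 hd
  have n2 := hsm 2 (by norm_num) (by decide)
  have n3 := hsm 3 (by norm_num) (by decide)
  have n5 := hsm 5 (by norm_num) (by decide)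
  have n7 := hsm 7 (by norm_num) (by decide)
  have n11 := hsm 11 (by norm_num) (by decide)
  have m2 : p % 2 ≠ 0 := fun h0 => n2 (hno 2 (by norm_num) h0)
  have m3 : p % 3 ≠ 0 := fun h0 => n3 (hno 3 (by norm_num) h0)
  have m5 : p % 5 ≠ 0 := fun h0 => n5 (hno 5 (by norm_num) h0)
  have m7 : p % 7 ≠ 0 := fun h0 => n7 (hno 7 (by norm_num) h0)
  have m11 : p % 11 ≠ 0 := fun h0 => n11 (hno 11 (by norm_num) h0)
  have hb : p = 6 * (p / 6) + 1 ∨ p = 6 * (p / 6) + 5 := by omega
  have hlt : p / 6 < 174763 := by norm_num at h; omega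
  have hT : tst p = true := by
    rcases hb with hb | hb
    · rw [hb]
      by_cases e1 : p / 6 = 182
      · omega
      by_cases e2 : p / 6 = 585
      · omega
      exact (all_tst _ hlt e1 e2).1
    · rw [hb]
      by_cases e1 : p / 6 = 182
      · rw [e1]; exact c0'.1
      by_cases e2 : p / 6 = 585
      · rw [e2]; exact c0'.2
      exact (all_tst _ hlt e1 e2).2
  apply tst_spec p hpp.pos hT m5 m7 m11
  rw [pow_two] at hd
  have h1 : 1 ≤ 2 ^ (p - 1) := Nat.one_le_two_pow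
  obtain ⟨t, ht⟩ := hd
  have h2 : 2 ^ (p - 1) = p * p * t + 1 := by omega
  rw [h2, Nat.mul_add_mod]
  apply Nat.mod_eq_of_lt
  nlinarith

end Pool.Agent.H12.TD
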